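import Pool.Agent.Lib.MP_e25ec6_co.H59.Conv
import Pool.Agent.Lib.MP_e25ec6_co.H59.Transfer
import Pool.Agent.Lib.MP_e25ec6_co.H59.IfDir

set_option autoImplicit false

open Finset MeasureTheory

namespace Pool.Agent.Results.MP_e25ec6_co.PositiveGraphs

open Pool.Agent.PG

theorem mp_theta' {ι₁ ι₂ ι : Type*} [Fintype ι₁] [Fintype ι₂] [Fintype ι] {Ω : Type*}
    [MeasurableSpace Ω] (e : ι₁ ⊕ (ι₂ ⊕ ι₂) ≃ ι) (ν : Measure Ω) [SigmaFinite ν] :
    MeasurePreserving (fun x : ι → Ω => ((fun i : ι₁ => x (e (Sum.inl i))),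
        ((fun a : ι₂ => x (e (Sum.inr (Sum.inl a)))), (fun a : ι₂ => x (e (Sum.inr (Sum.inr a)))))))
      (Measure.pi fun _ => ν)
      ((Measure.pi fun _ => ν).prod ((Measure.pi fun _ => ν).prod (Measure.pi fun _ => ν))) := by
  have h1 := (measurePreserving_piCongrLeft (fun _ : ι => ν) e).symm
  have h2 := measurePreserving_sumPiEquivProdPi (fun _ : ι₁ ⊕ (ι₂ ⊕ ι₂) => ν)
  have h3 := measurePreserving_sumPiEquivProdPi (fun _ : ι₂ ⊕ ι₂ => ν)
  have h4 := (MeasurePreserving.id (Measure.pi fun _ : ι₁ => ν)).prod h3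
  exact h4.comp (h2.comp h1)

theorem square_int' {X Y : Type*} [MeasurableSpace X] [MeasurableSpace Y] (μ : Measure X)
    (ν : Measure Y) [SigmaFinite μ] [SigmaFinite ν] (g : X → Y → ℝ) :
    0 ≤ ∫ p : X × (Y × Y), g p.1 p.2.1 * g p.1 p.2.2 ∂(μ.prod (ν.prod ν)) := by
  by_cases hi : Integrable (fun p : X × (Y × Y) => g p.1 p.2.1 * g p.1 p.2.2)
      (μ.prod (ν.prod ν))
  · rw [integral_prod _ hi]
    refine integral_nonneg (fun x => ?_)
    show 0 ≤ ∫ q : Y × Y, g x q.1 * g x q.2 ∂(ν.prod ν)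
    rw [integral_prod_mul (fun y => g x y) (fun y => g x y)]
    exact mul_self_nonneg _
  · rw [integral_undef hi]

/-- A graph with a symmetric splitting is positive, for every kernel on every σ-finite measure
space. -/
theorem split_pos {V : Type*} [Fintype V] (H : SimpleGraph V) [Fintype H.edgeSet]
    (I A B : Set V) (hIA : Disjoint I A) (hIB : Disjoint I B) (hAB : Disjoint A B)
    (hun : I ∪ A ∪ B = Set.univ) (hII : ∀ u ∈ I, ∀ v ∈ I, ¬ H.Adj u v)
    (hnoAB : ∀ a ∈ A, ∀ b ∈ B, ¬ H.Adj a b) (f : V → V) (hbij : Set.BijOn f (I ∪ A) (I ∪ B))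
    (hfix : ∀ i ∈ I, f i = i)
    (hiso : ∀ u ∈ I ∪ A, ∀ v ∈ I ∪ A, (H.Adj u v ↔ H.Adj (f u) (f v)))
    {Ω : Type*} [MeasurableSpace Ω] (ν : Measure Ω) [SigmaFinite ν] (w : Sym2 Ω → ℝ)
    (hw : Measurable (fun p : Ω × Ω => w s(p.1, p.2))) :
    0 ≤ ∫ x : V → Ω, ∏ e ∈ H.edgeFinset, w (e.map x) ∂(Measure.pi fun _ => ν) := by
  classical
  rcases isEmpty_or_nonempty Ω with hΩ | ⟨⟨ω₀⟩⟩
  · refine integral_nonneg (fun x => ?_)
    rcases isEmpty_or_nonempty V with hV | ⟨⟨v⟩⟩
    · have : H.edgeFinset = ∅ := by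
        rw [Finset.eq_empty_iff_forall_notMem]
        intro e _
        induction e using Sym2.ind with
        | _ a b => exact hV.false a
      simp [this]
    · exact (hΩ.false (x v)).elim
  set EA : Finset (Sym2 V) := univ.filter (fun e => e ∈ H.edgeSet ∧ ∀ v ∈ e, v ∈ I ∪ A)
    with hEA
  set EB : Finset (Sym2 V) := univ.filter (fun e => e ∈ H.edgeSet ∧ ∀ v ∈ e, v ∈ I ∪ B)
    with hEB
  have hfA : ∀ a ∈ A, f a ∈ B := by
    intro a ha
    rcases hbij.mapsTo (Or.inr ha) with h1 | h1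
    · exfalso
      have h2 := hbij.injOn (Or.inl h1) (Or.inr ha) (hfix _ h1)
      exact Set.disjoint_left.1 hIA h1 (by rw [h2]; exact ha)
    · exact h1
  have hAf : ∀ b ∈ B, ∃ a ∈ A, f a = b := by
    intro b hb
    obtain ⟨a, ha, hab⟩ := hbij.surjOn (Or.inr hb)
    rcases ha with ha | ha
    · exfalso
      rw [hfix a ha] at hab
      exact Set.disjoint_left.1 hIB ha (hab ▸ hb)
    · exact ⟨a, ha, hab⟩
  have hm : ∀ v : V, v ∈ I ∨ v ∈ A ∨ v ∈ B := by
    intro v
    have : v ∈ I ∪ A ∪ B := by rw [hun]; exact Set.mem_univ v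
    rcases this with (h | h) | h
    · exact Or.inl h
    · exact Or.inr (Or.inl h)
    · exact Or.inr (Or.inr h)
  -- the factorisation of the integrand
  let PA : (V → Ω) → ℝ := fun u => ∏ e ∈ EA, w (e.map u)
  have hfac : ∀ x : V → Ω, ∏ e ∈ H.edgeFinset, w (e.map x) = PA x * PA (x ∘ f) := by
    intro x
    have h1 : H.edgeFinset = EA ∪ EB := by
      ext e
      induction e using Sym2.ind with
      | _ a b =>
        simp only [SimpleGraph.mem_edgeFinset, hEA, hEB, mem_union, mem_filter, mem_univ,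
          true_and, SimpleGraph.mem_edgeSet, Sym2.mem_iff, forall_eq_or_imp, forall_eq,
          Set.mem_union]
        constructor
        · intro hadj
          rcases hm a with h1 | h1 | h1 <;> rcases hm b with h2 | h2 | h2
          · exact absurd hadj (hII _ h1 _ h2)
          · exact Or.inl ⟨hadj, Or.inl h1, Or.inr h2⟩
          · exact Or.inr ⟨hadj, Or.inl h1, Or.inr h2⟩
          · exact Or.inl ⟨hadj, Or.inr h1, Or.inl h2⟩
          · exact Or.inl ⟨hadj, Or.inr h1, Or.inr h2⟩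
          · exact absurd hadj (hnoAB _ h1 _ h2)
          · exact Or.inr ⟨hadj, Or.inr h1, Or.inl h2⟩
          · exact absurd hadj.symm (hnoAB _ h2 _ h1)
          · exact Or.inr ⟨hadj, Or.inr h1, Or.inr h2⟩
        · rintro (h | h) <;> exact h.1
    have hdisj : Disjoint EA EB := by
      rw [Finset.disjoint_left]
      intro e he he'
      have h1 := (Finset.mem_filter.1 he).2
      have h2 := (Finset.mem_filter.1 he').2
      clear he he'
      induction e using Sym2.ind with
      | _ a b =>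
        have hmem : ∀ v : V, v ∈ I ∪ A → v ∈ I ∪ B → v ∈ I := by
          rintro v (h | h) (h' | h')
          · exact h
          · exact h
          · exact h'
          · exact absurd h' (Set.disjoint_left.1 hAB h)
        exact hII a (hmem a (h1.2 a (Sym2.mem_mk_left a b)) (h2.2 a (Sym2.mem_mk_left a b)))
          b (hmem b (h1.2 b (Sym2.mem_mk_right a b)) (h2.2 b (Sym2.mem_mk_right a b))) h1.1
    rw [h1, Finset.prod_union hdisj]
    congr 1
    symm
    refine Finset.prod_bij (fun e _ => e.map f) ?_ ?_ ?_ ?_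
    · intro e he
      have h2 := (Finset.mem_filter.1 he).2
      clear he
      induction e using Sym2.ind with
      | _ a b =>
        have ha := h2.2 a (Sym2.mem_mk_left a b)
        have hb := h2.2 b (Sym2.mem_mk_right a b)
        rw [Sym2.map_mk, hEB, Finset.mem_filter]
        refine ⟨mem_univ _, (hiso a ha b hb).1 h2.1, ?_⟩
        intro v hv
        rcases Sym2.mem_iff.1 hv with rfl | rfl
        · exact hbij.mapsTo ha
        · exact hbij.mapsTo hb
    · intro e he e' he' hee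
      have h2 := (Finset.mem_filter.1 he).2
      have h3 := (Finset.mem_filter.1 he').2
      clear he he'
      induction e using Sym2.ind with
      | _ a b =>
        induction e' using Sym2.ind with
        | _ a' b' =>
          have ha := h2.2 a (Sym2.mem_mk_left a b)
          have hb := h2.2 b (Sym2.mem_mk_right a b)
          have ha' := h3.2 a' (Sym2.mem_mk_left a' b')
          have hb' := h3.2 b' (Sym2.mem_mk_right a' b')
          simp only [Sym2.map_mk] at hee
          rcases Sym2.eq_iff.1 hee with ⟨h4, h5⟩ | ⟨h4, h5⟩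
          · rw [hbij.injOn ha ha' h4, hbij.injOn hb hb' h5]
          · rw [hbij.injOn ha hb' h4, hbij.injOn hb ha' h5, Sym2.eq_swap]
    · intro e he
      have h2 := (Finset.mem_filter.1 he).2
      clear he
      induction e using Sym2.ind with
      | _ a b =>
        obtain ⟨a', ha', rfl⟩ := hbij.surjOn (h2.2 a (Sym2.mem_mk_left a b))
        obtain ⟨b', hb', rfl⟩ := hbij.surjOn (h2.2 b (Sym2.mem_mk_right (f a') b))
        refine ⟨s(a', b'), ?_, rfl⟩
        rw [hEA, Finset.mem_filter]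
        refine ⟨mem_univ _, (hiso a' ha' b' hb').2 h2.1, ?_⟩
        intro v hv
        rcases Sym2.mem_iff.1 hv with rfl | rfl
        · exact ha'
        · exact hb'
    · intro e _
      rw [Sym2.map_map]
  -- the index equivalence
  let ι₁ := {v : V // v ∈ I}
  let ι₂ := {v : V // v ∈ A}
  let e₀ : ι₁ ⊕ (ι₂ ⊕ ι₂) → V :=
    Sum.elim (fun i => i.1) (Sum.elim (fun a => a.1) (fun a => f a.1))
  have he₀ : Function.Bijective e₀ := by
    constructor
    · rintro (i | a | a) (i' | a' | a') hh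
      · exact congrArg Sum.inl (Subtype.ext hh)
      · have hh' : i.1 = a'.1 := hh
        exact absurd a'.2 (hh' ▸ Set.disjoint_left.1 hIA i.2)
      · have hh' : i.1 = f a'.1 := hh
        exact absurd (hfA _ a'.2) (hh' ▸ Set.disjoint_left.1 hIB i.2)
      · have hh' : a.1 = i'.1 := hh
        exact absurd a.2 (hh' ▸ Set.disjoint_left.1 hIA i'.2)
      · exact congrArg (fun z => Sum.inr (Sum.inl z)) (Subtype.ext hh)
      · have hh' : a.1 = f a'.1 := hh
        exact absurd (hfA _ a'.2) (hh' ▸ Set.disjoint_left.1 hAB a.2)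
      · have hh' : f a.1 = i'.1 := hh
        exact absurd (hfA _ a.2) (hh' ▸ Set.disjoint_left.1 hIB i'.2)
      · have hh' : f a.1 = a'.1 := hh
        exact absurd (hfA _ a.2) (hh' ▸ Set.disjoint_left.1 hAB a'.2)
      · have hh' : f a.1 = f a'.1 := hh
        exact congrArg (fun z => Sum.inr (Sum.inr z))
          (Subtype.ext (hbij.injOn (Or.inr a.2) (Or.inr a'.2) hh'))
    · intro v
      rcases hm v with hv | hv | hv
      · exact ⟨Sum.inl ⟨v, hv⟩, rfl⟩
      · exact ⟨Sum.inr (Sum.inl ⟨v, hv⟩), rfl⟩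
      · obtain ⟨a, ha, hav⟩ := hAf v hv
        exact ⟨Sum.inr (Sum.inr ⟨a, ha⟩), hav⟩
  let e : ι₁ ⊕ (ι₂ ⊕ ι₂) ≃ V := Equiv.ofBijective e₀ he₀
  let ext : (ι₁ → Ω) → (ι₂ → Ω) → (V → Ω) := fun y z v =>
    if h : v ∈ I then y ⟨v, h⟩ else if h : v ∈ A then z ⟨v, h⟩ else ω₀
  let g : (ι₁ → Ω) → (ι₂ → Ω) → ℝ := fun y z => PA (ext y z)
  have hPA : ∀ u : V → Ω, PA u = g (fun i => u i.1) (fun a => u a.1) := by
    intro u
    refine Finset.prod_congr rfl (fun e he => ?_)
    have h2 := (Finset.mem_filter.1 he).2.2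
    clear he
    have hv : ∀ v, v ∈ I ∪ A → ext (fun i => u i.1) (fun a => u a.1) v = u v := by
      intro v hv
      simp only [ext]
      by_cases h1 : v ∈ I
      · rw [dif_pos h1]
      · have h3 : v ∈ A := hv.resolve_left h1
        rw [dif_neg h1, dif_pos h3]
    induction e using Sym2.ind with
    | _ a b =>
      rw [Sym2.map_mk, Sym2.map_mk, hv a (h2 a (Sym2.mem_mk_left a b)),
        hv b (h2 b (Sym2.mem_mk_right a b))]
  have hcomb : ∀ x : V → Ω, ∏ q ∈ H.edgeFinset, w (q.map x) =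
        g (fun i => x (e (Sum.inl i))) (fun a => x (e (Sum.inr (Sum.inl a)))) *
          g (fun i => x (e (Sum.inl i))) (fun a => x (e (Sum.inr (Sum.inr a)))) := by
    intro x
    rw [hfac x, hPA x, hPA (x ∘ f)]
    have h1 : (fun i : ι₁ => (x ∘ f) i.1) = fun i => x (e (Sum.inl i)) := by
      funext i
      show x (f i.1) = x i.1
      rw [hfix i.1 i.2]
    rw [h1]
    rfl
  simp_rw [hcomb]
  have hmp := mp_theta' e ν
  have hgm : Measurable (fun p : (ι₁ → Ω) × (ι₂ → Ω) => g p.1 p.2) := by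
    refine Finset.measurable_prod _ (fun e _ => ?_)
    have hext : ∀ v : V, Measurable (fun p : (ι₁ → Ω) × (ι₂ → Ω) => ext p.1 p.2 v) := by
      intro v
      simp only [ext]
      by_cases h1 : v ∈ I
      · simp only [dif_pos h1]
        exact (measurable_pi_apply _).comp measurable_fst
      · by_cases h2 : v ∈ A
        · simp only [dif_neg h1, dif_pos h2]
          exact (measurable_pi_apply _).comp measurable_snd
        · simp only [dif_neg h1, dif_neg h2]
          exact measurable_const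
    induction e using Sym2.ind with
    | _ a b => exact hw.comp ((hext a).prodMk (hext b))
  have hhm : Measurable (fun p : (ι₁ → Ω) × ((ι₂ → Ω) × (ι₂ → Ω)) =>
      g p.1 p.2.1 * g p.1 p.2.2) :=
    (hgm.comp (measurable_fst.prodMk (measurable_fst.comp measurable_snd))).mul
      (hgm.comp (measurable_fst.prodMk (measurable_snd.comp measurable_snd)))
  have hmap := integral_map (μ := Measure.pi fun _ : V => ν) (φ := fun x : V → Ω =>
    ((fun i : ι₁ => x (e (Sum.inl i))),
        ((fun a : ι₂ => x (e (Sum.inr (Sum.inl a)))), (fun a : ι₂ => x (e (Sum.inr (Sum.inr a)))))))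
    hmp.measurable.aemeasurable (f := fun p : (ι₁ → Ω) × ((ι₂ → Ω) × (ι₂ → Ω)) =>
      g p.1 p.2.1 * g p.1 p.2.2) hhm.aestronglyMeasurable
  rw [hmp.map_eq] at hmap
  rw [← hmap]
  exact square_int' _ _ g

section Transport

variable {V : Type*} (H : SimpleGraph V) [Fintype H.edgeSet] {n : ℕ} (ε : V ≃ Fin n)

/-- The edge product of `H` as a product over the pairs `p.1 < p.2` of the transported graph. -/
theorem edge_transport [DecidableRel (H.comap ε.symm).Adj] (F : Sym2 V → ℝ) :
    ∏ p ∈ Finset.univ.filter (fun p : Fin n × Fin n => p.1 < p.2 ∧ (H.comap ε.symm).Adj p.1 p.2),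
      F s(ε.symm p.1, ε.symm p.2) = ∏ q ∈ H.edgeFinset, F q := by
  refine Finset.prod_bij (fun p _ => s(ε.symm p.1, ε.symm p.2)) ?_ ?_ ?_ ?_
  · intro p hp
    simp only [mem_filter, mem_univ, true_and, SimpleGraph.comap_adj] at hp
    simpa using hp.2
  · intro p hp q hq h
    simp only [mem_filter, mem_univ, true_and] at hp hq
    rcases Sym2.eq_iff.1 h with ⟨h1, h2⟩ | ⟨h1, h2⟩
    · exact Prod.ext (ε.symm.injective h1) (ε.symm.injective h2)
    · exfalso
      have := hp.1
      rw [ε.symm.injective h1, ε.symm.injective h2] at this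
      exact absurd (this.trans hq.1) (lt_irrefl _)
  · intro e he
    induction e using Sym2.ind with
    | _ x y =>
      have hxy : H.Adj x y := by simpa using he
      rcases lt_or_gt_of_ne (fun h => hxy.ne (ε.injective h) : ε x ≠ ε y) with h | h
      · exact ⟨(ε x, ε y), by simp [h, hxy], by simp⟩
      · exact ⟨(ε y, ε x), by simp [h, hxy.symm], by simp [Sym2.eq_swap]⟩
  · intro p _
    rfl

end Transport

/-- **Positive graphs.** For a finite simple graph `H` the following are equivalent: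
(1) `H` is positive: `∫ ∏_{uv ∈ E(H)} W(x_u, x_v) dx ≥ 0` for all symmetric measurable
`W : [0,1]² → [-1,1]` (a symmetric function of two variables is a function on unordered pairs);
(2) the same for all bounded symmetric measurable real kernels on all probability spaces;
(3) for every finite graph with vertex weights `a ≥ 0` and real edge weights `w` (loops allowed)
the weighted number of homomorphisms from `H` is nonnegative;
(4) `H` has a symmetric splitting. -/
theorem result {V : Type*} [Fintype V] [DecidableEq V] (H : SimpleGraph V)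
    [Fintype H.edgeSet] :
    List.TFAE [
      ∀ W : Sym2 unitInterval → ℝ,
        Measurable (fun p : unitInterval × unitInterval => W s(p.1, p.2)) → (∀ e, |W e| ≤ 1) →
        0 ≤ ∫ x : V → unitInterval, ∏ e ∈ H.edgeFinset, W (e.map x),
      ∀ (Ω : Type) (_ : MeasurableSpace Ω) (μ : Measure Ω) (_ : IsProbabilityMeasure μ)
        (W : Sym2 Ω → ℝ), Measurable (fun p : Ω × Ω => W s(p.1, p.2)) →
        (∃ C : ℝ, ∀ e, |W e| ≤ C) →
        0 ≤ ∫ x : V → Ω, ∏ e ∈ H.edgeFinset, W (e.map x) ∂(Measure.pi fun _ => μ),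
      ∀ (T : Type) (_ : Fintype T) (a : T → ℝ) (w : Sym2 T → ℝ), (∀ t, 0 ≤ a t) →
        0 ≤ ∑ φ : V → T, (∏ v, a (φ v)) * ∏ e ∈ H.edgeFinset, w (e.map φ),
      ∃ I A B : Set V, Disjoint I A ∧ Disjoint I B ∧ Disjoint A B ∧ I ∪ A ∪ B = Set.univ ∧
        (∀ u ∈ I, ∀ v ∈ I, ¬ H.Adj u v) ∧ (∀ a ∈ A, ∀ b ∈ B, ¬ H.Adj a b) ∧
        ∃ f : H.induce (I ∪ A) ≃g H.induce (I ∪ B),
          ∀ v : ↥(I ∪ A), (v : V) ∈ I → (f v : V) = v] := by
  classical
  have h42 : (∃ I A B : Set V, Disjoint I A ∧ Disjoint I B ∧ Disjoint A B ∧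
      I ∪ A ∪ B = Set.univ ∧
        (∀ u ∈ I, ∀ v ∈ I, ¬ H.Adj u v) ∧ (∀ a ∈ A, ∀ b ∈ B, ¬ H.Adj a b) ∧
        ∃ f : H.induce (I ∪ A) ≃g H.induce (I ∪ B),
          ∀ v : ↥(I ∪ A), (v : V) ∈ I → (f v : V) = v) →
      ∀ (Ω : Type) (_ : MeasurableSpace Ω) (μ : Measure Ω) (_ : IsProbabilityMeasure μ)
        (W : Sym2 Ω → ℝ), Measurable (fun p : Ω × Ω => W s(p.1, p.2)) →
        (∃ C : ℝ, ∀ e, |W e| ≤ C) →
        0 ≤ ∫ x : V → Ω, ∏ e ∈ H.edgeFinset, W (e.map x) ∂(Measure.pi fun _ => μ) := by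
    rintro ⟨I, A, B, hIA, hIB, hAB, hun, hII, hnoAB, f, hf⟩ Ω _ μ _ W hW _
    let f' : V → V := fun v => if h : v ∈ I ∪ A then (f ⟨v, h⟩ : V) else v
    have hf' : ∀ (v : V) (h : v ∈ I ∪ A), f' v = f ⟨v, h⟩ := fun v h => dif_pos h
    refine split_pos H I A B hIA hIB hAB hun hII hnoAB f' ⟨?_, ?_, ?_⟩ ?_ ?_ μ W hW
    · intro v hv
      rw [hf' v hv]
      exact (f ⟨v, hv⟩).2
    · intro u hu v hv huv
      rw [hf' u hu, hf' v hv] at huv
      exact congrArg Subtype.val (f.injective (Subtype.ext huv))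
    · intro v hv
      refine ⟨(f.symm ⟨v, hv⟩ : V), (f.symm ⟨v, hv⟩).2, ?_⟩
      rw [hf' _ (f.symm ⟨v, hv⟩).2]
      simp
    · intro i hi
      rw [hf' i (Or.inl hi)]
      exact hf ⟨i, Or.inl hi⟩ hi
    · intro u hu v hv
      rw [hf' u hu, hf' v hv]
      have := f.map_adj_iff (v := ⟨u, hu⟩) (w := ⟨v, hv⟩)
      simpa using this.symm
  have h21 : (∀ (Ω : Type) (_ : MeasurableSpace Ω) (μ : Measure Ω) (_ : IsProbabilityMeasure μ)
        (W : Sym2 Ω → ℝ), Measurable (fun p : Ω × Ω => W s(p.1, p.2)) →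
        (∃ C : ℝ, ∀ e, |W e| ≤ C) →
        0 ≤ ∫ x : V → Ω, ∏ e ∈ H.edgeFinset, W (e.map x) ∂(Measure.pi fun _ => μ)) →
      ∀ W : Sym2 unitInterval → ℝ,
        Measurable (fun p : unitInterval × unitInterval => W s(p.1, p.2)) → (∀ e, |W e| ≤ 1) →
        0 ≤ ∫ x : V → unitInterval, ∏ e ∈ H.edgeFinset, W (e.map x) := by
    intro h W hW hW1
    exact h unitInterval inferInstance volume inferInstance W hW ⟨1, hW1⟩
  obtain ⟨n, ⟨ε⟩⟩ : ∃ n : ℕ, Nonempty (V ≃ Fin n) := ⟨_, ⟨Fintype.equivFin V⟩⟩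
  have h1L : (∀ W : Sym2 unitInterval → ℝ,
        Measurable (fun p : unitInterval × unitInterval => W s(p.1, p.2)) → (∀ e, |W e| ≤ 1) →
        0 ≤ ∫ x : V → unitInterval, ∏ e ∈ H.edgeFinset, W (e.map x)) →
      LeftSide n (H.comap ε.symm) := by
    intro h W₀ hW₀m hW₀
    let W : Sym2 unitInterval → ℝ := Sym2.lift ⟨fun a b => W₀ a b, fun a b =>
      (hW₀ a a.2 b b.2).1⟩
    have hWm : Measurable (fun p : unitInterval × unitInterval => W s(p.1, p.2)) := by
      have : (fun p : unitInterval × unitInterval => W s(p.1, p.2)) =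
          fun p => Function.uncurry W₀ ((p.1 : ℝ), (p.2 : ℝ)) := rfl
      rw [this]
      exact hW₀m.comp ((measurable_subtype_coe.comp measurable_fst).prodMk
        (measurable_subtype_coe.comp measurable_snd))
    have h0 := h W hWm (fun e => by
      induction e using Sym2.ind with
      | _ a b => exact (hW₀ a a.2 b b.2).2)
    -- change of variables
    have hmp1 : MeasurePreserving (Subtype.val : unitInterval → ℝ) volume
        (volume.restrict (Set.Icc (0:ℝ) 1)) := measurePreserving_subtype_coe measurableSet_Icc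
    have hmp2 : MeasurePreserving (fun (x : Fin n → unitInterval) (i : Fin n) => ((x i : ℝ)))
        (Measure.pi fun _ => volume) (Measure.pi fun _ => volume.restrict (Set.Icc (0:ℝ) 1)) :=
      measurePreserving_pi _ _ (fun _ => hmp1)
    have hmp3 := measurePreserving_piCongrLeft (fun _ : Fin n => (volume : Measure unitInterval)) ε
    have hmp := hmp2.comp hmp3
    have hpi : (volume : Measure (Fin n → ℝ)).restrict
        (Set.pi Set.univ (fun _ : Fin n => Set.Icc (0:ℝ) 1)) =
        Measure.pi (fun _ => volume.restrict (Set.Icc (0:ℝ) 1)) := by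
      rw [volume_pi, Measure.restrict_pi_pi]
    rw [hpi, ← hmp.map_eq, integral_map hmp.measurable.aemeasurable]
    · refine h0.trans (le_of_eq (integral_congr_ae (Filter.Eventually.of_forall (fun x => ?_))))
      show ∏ e ∈ H.edgeFinset, W (e.map x) = _
      rw [← edge_transport H ε (fun e => W (e.map x))]
      refine Finset.prod_congr rfl (fun p _ => ?_)
      have hx : ∀ i : Fin n, (MeasurableEquiv.piCongrLeft (fun _ : Fin n => unitInterval) ε) x i =
          x (ε.symm i) := by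
        intro i
        obtain ⟨v, rfl⟩ := ε.surjective i
        rw [ε.symm_apply_apply]
        exact MeasurableEquiv.piCongrLeft_apply_apply (β := fun _ : Fin n => unitInterval) ε x v
      show W₀ _ _ = W₀ _ _
      simp only [Function.comp_apply, hx]
      rfl
    · refine (Finset.measurable_prod _ (fun p _ => ?_)).aestronglyMeasurable
      have h5 : Measurable (fun y : Fin n → ℝ => (y p.1, y p.2)) :=
        (measurable_pi_apply p.1).prodMk (measurable_pi_apply p.2)
      exact hW₀m.comp h5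
  have hLR : LeftSide n (H.comap ε.symm) → (RightSide n (H.comap ε.symm) ∧
      ∀ (T : Type) (_ : Fintype T) (a : T → ℝ) (w : Sym2 T → ℝ), (∀ t, 0 ≤ a t) →
        0 ≤ ∑ φ : V → T, (∏ v, a (φ v)) * ∏ e ∈ H.edgeFinset, w (e.map φ)) := by
    intro h
    refine ⟨right_of_transfer n _ (fun T _ μ hμ w => transfer n _ h T μ hμ w), ?_⟩
    intro T _ a w ha
    have h1 := transfer n _ h T a ha w
    refine h1.trans (le_of_eq ?_)
    refine Fintype.sum_equiv (Equiv.arrowCongr ε.symm (Equiv.refl T)) _ _ (fun φ => ?_)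
    have hφ : ∀ v, (Equiv.arrowCongr ε.symm (Equiv.refl T)) φ v = φ (ε v) := fun v => rfl
    congr 1
    · exact Fintype.prod_equiv ε.symm _ _ (fun v => by simp [hφ])
    · rw [← edge_transport H ε (fun e => w (e.map ((Equiv.arrowCongr ε.symm (Equiv.refl T)) φ)))]
      refine Finset.prod_congr rfl (fun p _ => ?_)
      simp [hφ]
  have h3R : (∀ (T : Type) (_ : Fintype T) (a : T → ℝ) (w : Sym2 T → ℝ), (∀ t, 0 ≤ a t) →
        0 ≤ ∑ φ : V → T, (∏ v, a (φ v)) * ∏ e ∈ H.edgeFinset, w (e.map φ)) →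
      RightSide n (H.comap ε.symm) := by
    intro h
    refine right_of_transfer n _ (fun T _ μ hμ w => ?_)
    have h1 := h T inferInstance μ w hμ
    refine h1.trans (le_of_eq ?_)
    symm
    refine Fintype.sum_equiv (Equiv.arrowCongr ε.symm (Equiv.refl T)) _ _ (fun φ => ?_)
    have hφ : ∀ v, (Equiv.arrowCongr ε.symm (Equiv.refl T)) φ v = φ (ε v) := fun v => rfl
    congr 1
    · exact Fintype.prod_equiv ε.symm _ _ (fun v => by simp [hφ])
    · rw [← edge_transport H ε (fun e => w (e.map ((Equiv.arrowCongr ε.symm (Equiv.refl T)) φ)))]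
      refine Finset.prod_congr rfl (fun p _ => ?_)
      simp [hφ]
  have hR4 : RightSide n (H.comap ε.symm) → ∃ I A B : Set V, Disjoint I A ∧ Disjoint I B ∧
      Disjoint A B ∧ I ∪ A ∪ B = Set.univ ∧
        (∀ u ∈ I, ∀ v ∈ I, ¬ H.Adj u v) ∧ (∀ a ∈ A, ∀ b ∈ B, ¬ H.Adj a b) ∧
        ∃ f : H.induce (I ∪ A) ≃g H.induce (I ∪ B),
          ∀ v : ↥(I ∪ A), (v : V) ∈ I → (f v : V) = v := by
    rintro ⟨I, A, B, hIA, hIB, hAB, hun, hII, hnoAB, f, hbij, hfix, hiso⟩
    refine ⟨ε ⁻¹' I, ε ⁻¹' A, ε ⁻¹' B, hIA.preimage _, hIB.preimage _, hAB.preimage _, ?_, ?_, ?_,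
      ?_⟩
    · rw [← Set.preimage_union, ← Set.preimage_union, hun, Set.preimage_univ]
    · intro u hu v hv huv
      exact hII _ hu _ hv (by simpa using huv)
    · intro u hu v hv huv
      exact hnoAB _ hu _ hv (by simpa using huv)
    · have hmaps : ∀ v : ↥(ε ⁻¹' I ∪ ε ⁻¹' A), ε.symm (f (ε v)) ∈ (ε ⁻¹' I ∪ ε ⁻¹' B : Set V) := by
        intro v
        have h1 : ε v ∈ I ∪ A := v.2
        have h2 := hbij.mapsTo h1
        show ε (ε.symm (f (ε v))) ∈ I ∪ B
        rwa [ε.apply_symm_apply]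
      have hbij' : Function.Bijective
          (fun v : ↥(ε ⁻¹' I ∪ ε ⁻¹' A) => (⟨ε.symm (f (ε v)), hmaps v⟩ :
            ↥(ε ⁻¹' I ∪ ε ⁻¹' B : Set V))) := by
        constructor
        · intro u v huv
          have h1 : ε.symm (f (ε u)) = ε.symm (f (ε v)) := congrArg Subtype.val huv
          have h2 := hbij.injOn (x₁ := ε u) (x₂ := ε v) u.2 v.2 (ε.symm.injective h1)
          exact Subtype.ext (ε.injective h2)
        · intro v
          obtain ⟨u, hu, huv⟩ := hbij.surjOn (a := ε v) v.2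
          refine ⟨⟨ε.symm u, ?_⟩, ?_⟩
          · show ε (ε.symm u) ∈ I ∪ A
            rwa [ε.apply_symm_apply]
          · apply Subtype.ext
            show ε.symm (f (ε (ε.symm u))) = v
            rw [ε.apply_symm_apply, huv, ε.symm_apply_apply]
      refine ⟨⟨Equiv.ofBijective _ hbij', ?_⟩, ?_⟩
      · intro u v
        have h1 := hiso (ε u) u.2 (ε v) v.2
        simp only [SimpleGraph.comap_adj, ε.symm_apply_apply] at h1
        show H.Adj (ε.symm (f (ε u))) (ε.symm (f (ε v))) ↔ H.Adj (u : V) (v : V)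
        exact h1.symm
      · intro v hv
        show ε.symm (f (ε v)) = v
        rw [hfix (ε v) hv, ε.symm_apply_apply]
  tfae_have 4 → 2 := h42
  tfae_have 2 → 1 := h21
  tfae_have 1 → 3 := fun h => (hLR (h1L h)).2
  tfae_have 3 → 4 := fun h => hR4 (h3R h)
  tfae_finish

end Pool.Agent.Results.MP_e25ec6_co.PositiveGraphs
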